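import Mathlib

/-!
# Cubic Cayley graphs: cosets of cyclic subgroups as colours
-/

namespace H13CC

/-- The Cayley graph of `Γ` with connection set `S`: `g` and `h` are joined when they are distinct
and `g⁻¹ * h` or `h⁻¹ * g` is in `S`. -/
def cayley {Γ : Type} [Group Γ] (S : Set Γ) : SimpleGraph Γ :=
  SimpleGraph.fromRel (fun g h => g⁻¹ * h ∈ S)

/-- Exactly two of three values. -/
def Two {C : Type} (u v w : C) : Prop := (u = v ∧ u ≠ w) ∨ (u = w ∧ u ≠ v) ∨ (v = w ∧ u ≠ v)

theorem two_ncard {C : Type} {u v w : C} (h : Two u v w) : ({u, v, w} : Set C).ncard = 2 := by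
  rcases h with ⟨rfl, h⟩ | ⟨rfl, h⟩ | ⟨rfl, h⟩
  · rw [Set.insert_eq_of_mem (Set.mem_insert _ _), Set.ncard_pair h]
  · rw [Set.insert_eq_of_mem (by simp), Set.ncard_pair (Ne.symm h)]
  · rw [Set.insert_eq_of_mem (a := v) (by simp), Set.ncard_pair h]

variable {Γ : Type} [Group Γ]

/-- A colouring of the group by arbitrary colours: proper along `p, q, r` and with exactly two
colours on `{g p, g q, g r}`. -/
def Good (p q r : Γ) : Prop :=
  ∃ (C : Type) (c : Γ → C), ∀ g, c (g * p) ≠ c g ∧ c (g * q) ≠ c g ∧ c (g * r) ≠ c g ∧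
    Two (c (g * p)) (c (g * q)) (c (g * r))

/-- Colouring by the left cosets of a subgroup. -/
theorem good_coset (H : Subgroup Γ) {p q r : Γ} (hp : p ∉ H) (hq : q ∉ H) (hr : r ∉ H)
    (hpq : p⁻¹ * q ∈ H) (hpr : p⁻¹ * r ∉ H) : Good p q r := by
  have hne : ∀ (s g : Γ), s ∉ H → ((g * s : Γ) : Γ ⧸ H) ≠ (g : Γ ⧸ H) := by
    intro s g hs h
    rw [QuotientGroup.eq] at h
    apply hs
    have h2 : (g * s)⁻¹ * g = s⁻¹ := by group
    rw [h2] at h
    exact (Subgroup.inv_mem_iff H).1 h
  refine ⟨Γ ⧸ H, fun g => (g : Γ ⧸ H), fun g => ⟨hne p g hp, hne q g hq, hne r g hr, ?_⟩⟩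
  left
  constructor
  · rw [QuotientGroup.eq]
    have : (g * p)⁻¹ * (g * q) = p⁻¹ * q := by group
    rw [this]
    exact hpq
  · intro h
    rw [QuotientGroup.eq] at h
    have h2 : (g * p)⁻¹ * (g * r) = p⁻¹ * r := by group
    rw [h2] at h
    exact hpr h

theorem good_of_eq {p q r p' q' r' : Γ} (h : Good p q r) (hS : ({p, q, r} : Set Γ) = {p', q', r'}) :
    ∃ (C : Type) (c : Γ → C), (∀ g, ∀ s ∈ ({p', q', r'} : Set Γ), c (g * s) ≠ c g) ∧
      ∀ g, ((fun s => c (g * s)) '' ({p', q', r'} : Set Γ)).ncard = 2 := by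
  obtain ⟨C, c, hc⟩ := h
  refine ⟨C, c, ?_, ?_⟩
  · intro g s hs
    rw [← hS] at hs
    rcases hs with rfl | rfl | rfl
    · exact (hc g).1
    · exact (hc g).2.1
    · exact (hc g).2.2.1
  · intro g
    rw [← hS, Set.image_insert_eq, Set.image_pair]
    exact two_ncard (hc g).2.2.2

/-- The neighbours in the Cayley graph. -/
theorem neighborSet_cayley {S : Set Γ} (hS : ∀ s ∈ S, s⁻¹ ∈ S) (h1 : (1 : Γ) ∉ S) (g : Γ) :
    (cayley S).neighborSet g = (fun s => g * s) '' S := by
  ext h
  rw [SimpleGraph.mem_neighborSet, cayley, SimpleGraph.fromRel_adj]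
  constructor
  · rintro ⟨-, h2 | h2⟩
    · exact ⟨_, h2, by group⟩
    · refine ⟨_, hS _ h2, by group⟩
  · rintro ⟨s, hs, rfl⟩
    refine ⟨?_, Or.inl ?_⟩
    · intro h
      have : s = 1 := by
        have := congrArg (fun z => g⁻¹ * z) h
        simpa using this.symm
      exact h1 (this ▸ hs)
    · simpa using hs

/-- From a colouring of the group to a colouring of the graph with finitely many colours. -/
theorem final_of [Finite Γ] {S : Set Γ} (hS : ∀ s ∈ S, s⁻¹ ∈ S) (h1 : (1 : Γ) ∉ S)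
    (h : ∃ (C : Type) (c : Γ → C), (∀ g, ∀ s ∈ S, c (g * s) ≠ c g) ∧
      ∀ g, ((fun s => c (g * s)) '' S).ncard = 2) :
    ∃ (k : ℕ) (c : (cayley S).Coloring (Fin k)),
      ∀ v : Γ, (c '' (cayley S).neighborSet v).ncard = 2 := by
  classical
  obtain ⟨C, c, hc1, hc2⟩ := h
  have hfin : Finite (Set.range c) := Set.finite_range c
  obtain ⟨k, ⟨e⟩⟩ := Finite.exists_equiv_fin (Set.range c)
  let f : Γ → Fin k := fun g => e ⟨c g, Set.mem_range_self g⟩
  have hf : ∀ g h, f g = f h ↔ c g = c h := by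
    intro g h
    constructor
    · intro hh
      have := e.injective hh
      exact congrArg Subtype.val this
    · intro hh
      simp only [f]
      congr 1
      exact Subtype.ext hh
  have hval : ∀ {g h : Γ}, (cayley S).Adj g h → f g ≠ f h := by
    intro g h hgh hfe
    have hm : h ∈ (cayley S).neighborSet g := hgh
    rw [neighborSet_cayley hS h1] at hm
    obtain ⟨s, hs, rfl⟩ := hm
    exact hc1 g s hs ((hf _ _).1 hfe).symm
  refine ⟨k, SimpleGraph.Coloring.mk f hval, ?_⟩
  intro v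
  have e1 : ((SimpleGraph.Coloring.mk f hval : (cayley S).Coloring (Fin k)) ''
      (cayley S).neighborSet v) = f '' ((fun s => v * s) '' S) := by
    rw [neighborSet_cayley hS h1]
    rfl
  rw [e1, Set.image_image]
  have e2 : (fun s => c (v * s)) '' S = (fun i : Fin k => ((e.symm i : Set.range c) : C)) ''
      ((fun s => f (v * s)) '' S) := by
    rw [Set.image_image]
    apply Set.image_congr
    intro s _
    simp [f]
  have e3 := hc2 v
  rw [e2, Set.ncard_image_of_injective] at e3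
  · exact e3
  · intro i j hij
    exact e.symm.injective (Subtype.ext hij)

end H13CC
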