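import Pool.Agent.H13.CC.Grp

/-!
# Cubic Cayley graphs of cyclic groups: Moebius ladders and prisms
-/

namespace H13CC

/-- colours of the Moebius ladder with `2 h` vertices -/
def fM (h j : ℕ) : ℕ :=
  if j = 0 then 1 else if j = 1 then 2 else if j < h then j % 2
  else if j = h then 3 else if j = h + 1 then 0 else 2 + j % 2

theorem fM_spec (h j : ℕ) (h4 : 4 ≤ h) :
    (j = 0 ∧ fM h j = 1) ∨ (j = 1 ∧ fM h j = 2) ∨ (2 ≤ j ∧ j < h ∧ fM h j = j % 2) ∨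
      (j = h ∧ fM h j = 3) ∨ (j = h + 1 ∧ fM h j = 0) ∨ (h + 2 ≤ j ∧ fM h j = 2 + j % 2) := by
  unfold fM
  split_ifs <;> omega

theorem fM_step1 {h j j' : ℕ} (he : h % 2 = 0) (h4 : 4 ≤ h) (hj : j < 2 * h) (hj' : j' < 2 * h)
    (h1 : j' = j + 1 ∨ j' + 2 * h = j + 1) : fM h j' ≠ fM h j := by
  have e1 := fM_spec h j h4
  have e2 := fM_spec h j' h4
  omega

theorem fM_stepH {h j j' : ℕ} (he : h % 2 = 0) (h4 : 4 ≤ h) (hj : j < 2 * h) (hj' : j' < 2 * h)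
    (h1 : j' = j + h ∨ j' + 2 * h = j + h) : fM h j' ≠ fM h j := by
  have e1 := fM_spec h j h4
  have e2 := fM_spec h j' h4
  omega

set_option maxHeartbeats 2000000 in
theorem fM_two {h j j1 j2 j3 : ℕ} (he : h % 2 = 0) (h4 : 4 ≤ h) (hj : j < 2 * h)
    (hj1 : j1 < 2 * h) (hj2 : j2 < 2 * h) (hj3 : j3 < 2 * h)
    (h1 : j1 = j + h ∨ j1 + 2 * h = j + h)
    (h2 : j2 = j + 1 ∨ j2 + 2 * h = j + 1)
    (h3 : j3 = j + (2 * h - 1) ∨ j3 + 2 * h = j + (2 * h - 1)) :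
    Two (fM h j1) (fM h j2) (fM h j3) := by
  have e1 := fM_spec h j1 h4
  have e2 := fM_spec h j2 h4
  have e3 := fM_spec h j3 h4
  unfold Two
  generalize fM h j1 = u1 at *
  generalize fM h j2 = u2 at *
  generalize fM h j3 = u3 at *
  have h1' : (j < h ∧ j1 = j + h) ∨ (h ≤ j ∧ j1 + h = j) := by omega
  have h2' : (j + 1 < 2 * h ∧ j2 = j + 1) ∨ (j + 1 = 2 * h ∧ j2 = 0) := by omega
  have h3' : (1 ≤ j ∧ j3 + 1 = j) ∨ (j = 0 ∧ j3 + 1 = 2 * h) := by omega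
  clear h1 h2 h3 hj1 hj2 hj3
  rcases h1' with ⟨h1, h1'⟩ | ⟨h1, h1'⟩ <;> rcases h2' with ⟨h2, h2'⟩ | ⟨h2, h2'⟩ <;>
    rcases h3' with ⟨h3, h3'⟩ | ⟨h3, h3'⟩ <;> try omega

/-- colours of the prism over a cycle of odd length `k`: column `i`, row `e` -/
def gP (k i e : ℕ) : ℕ :=
  if k = 3 then (i + e) % 3 else
  if i = 0 then 1 - e else if i = 1 then 2 - e else if i = 2 then 3 - e
  else i % 2 + 2 * e

/-- colours of the prism in terms of the exponent `j < 2 k` -/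
def fP (k j : ℕ) : ℕ := if j < k then gP k j (j % 2) else gP k (j - k) (j % 2)

theorem gP_spec (k i e : ℕ) : (k = 3 ∧ gP k i e = (i + e) % 3) ∨
    (k ≠ 3 ∧ i = 0 ∧ gP k i e = 1 - e) ∨ (k ≠ 3 ∧ i = 1 ∧ gP k i e = 2 - e) ∨
    (k ≠ 3 ∧ i = 2 ∧ gP k i e = 3 - e) ∨ (k ≠ 3 ∧ 3 ≤ i ∧ gP k i e = i % 2 + 2 * e) := by
  unfold gP
  split_ifs <;> omega

/-- column `i` and its two neighbours in the cyclic order -/
theorem gP_two {k i i1 i2 e e' : ℕ} (hk : k % 2 = 1) (h3 : 3 ≤ k) (hi : i < k)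
    (h1 : i1 = i + 1 ∧ i + 1 < k ∨ i1 = 0 ∧ i + 1 = k)
    (h2 : i = i2 + 1 ∨ i = 0 ∧ i2 + 1 = k) (he : e = 0 ∧ e' = 1 ∨ e = 1 ∧ e' = 0) :
    gP k i1 e ≠ gP k i e ∧ gP k i2 e ≠ gP k i e ∧ gP k i e' ≠ gP k i e ∧
      Two (gP k i e') (gP k i1 e) (gP k i2 e) := by
  have s0 := gP_spec k i e
  have s1 := gP_spec k i1 e
  have s2 := gP_spec k i2 e
  have s3 := gP_spec k i e'
  unfold Two
  generalize gP k i e = u0 at *
  generalize gP k i1 e = u1 at *
  generalize gP k i2 e = u2 at *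
  generalize gP k i e' = u3 at *
  rcases Nat.lt_or_ge 3 k with hk3 | hk3
  · rcases h1 with ⟨rfl, h1⟩ | ⟨rfl, h1⟩
    · rcases h2 with rfl | ⟨rfl, h2⟩
      · rcases he with ⟨rfl, rfl⟩ | ⟨rfl, rfl⟩
        · refine ⟨?_, ?_, ?_, ?_⟩ <;> omega
        · refine ⟨?_, ?_, ?_, ?_⟩ <;> omega
      · rcases he with ⟨rfl, rfl⟩ | ⟨rfl, rfl⟩
        · refine ⟨?_, ?_, ?_, ?_⟩ <;> omega
        · refine ⟨?_, ?_, ?_, ?_⟩ <;> omega
    · rcases he with ⟨rfl, rfl⟩ | ⟨rfl, rfl⟩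
      · refine ⟨?_, ?_, ?_, ?_⟩ <;> omega
      · refine ⟨?_, ?_, ?_, ?_⟩ <;> omega
  · obtain rfl : k = 3 := by omega
    rcases he with ⟨rfl, rfl⟩ | ⟨rfl, rfl⟩
    · refine ⟨?_, ?_, ?_, ?_⟩ <;> omega
    · refine ⟨?_, ?_, ?_, ?_⟩ <;> omega

set_option maxHeartbeats 2000000 in
theorem fP_all {k j j1 j2 j3 : ℕ} (hk : k % 2 = 1) (h3 : 3 ≤ k) (hj : j < 2 * k)
    (hj1 : j1 < 2 * k) (hj2 : j2 < 2 * k) (hj3 : j3 < 2 * k)
    (h1 : j1 = j + k ∨ j1 + 2 * k = j + k)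
    (h2 : j2 = j + (k + 1) ∨ j2 + 2 * k = j + (k + 1))
    (hh : j3 = j + (k - 1) ∨ j3 + 2 * k = j + (k - 1)) :
    fP k j1 ≠ fP k j ∧ fP k j2 ≠ fP k j ∧ fP k j3 ≠ fP k j ∧
      Two (fP k j1) (fP k j2) (fP k j3) := by
  -- column and row of `j`
  obtain ⟨i, hi, hji⟩ : ∃ i, i < k ∧ (j = i ∨ j = i + k) := by
    rcases Nat.lt_or_ge j k with h | h
    · exact ⟨j, h, Or.inl rfl⟩
    · exact ⟨j - k, by omega, Or.inr (by omega)⟩
  have key := fun (i1 i2 : ℕ) => gP_two (k := k) (i := i) (i1 := i1) (i2 := i2)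
    (e := j % 2) (e' := (j + 1) % 2) hk h3 hi
  have hf : ∀ {l m : ℕ}, m < k → (l = m ∨ l = m + k) → fP k l = gP k m (l % 2) := by
    intro l m hm hlm
    unfold fP
    rcases hlm with rfl | rfl
    · rw [if_pos hm]
    · rw [if_neg (by omega), Nat.add_sub_cancel]
  have r1 : j1 % 2 = (j + 1) % 2 := by omega
  have r2 : j2 % 2 = j % 2 := by omega
  have r3 : j3 % 2 = j % 2 := by omega
  have c1 : j1 = i ∨ j1 = i + k := by omega
  have hee : j % 2 = 0 ∧ (j + 1) % 2 = 1 ∨ j % 2 = 1 ∧ (j + 1) % 2 = 0 := by omega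
  by_cases hlast : i + 1 = k
  · have c2 : j2 = 0 ∨ j2 = 0 + k := by omega
    have c3 : j3 = (k - 2) ∨ j3 = (k - 2) + k := by omega
    obtain ⟨p1, p2, p3, p4⟩ := key 0 (k - 2) (Or.inr ⟨rfl, hlast⟩) (by omega) hee
    rw [hf hi hji, hf hi c1, hf (by omega) c2, hf (by omega) c3, r1, r2, r3]
    exact ⟨p3, p1, p2, p4⟩
  · have c2 : j2 = i + 1 ∨ j2 = i + 1 + k := by omega
    by_cases h0 : i = 0
    · have c3 : j3 = (k - 1) ∨ j3 = (k - 1) + k := by omega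
      obtain ⟨p1, p2, p3, p4⟩ := key (i + 1) (k - 1) (Or.inl ⟨rfl, by omega⟩) (by omega) hee
      rw [hf hi hji, hf hi c1, hf (by omega) c2, hf (by omega) c3, r1, r2, r3]
      exact ⟨p3, p1, p2, p4⟩
    · have c3 : j3 = (i - 1) ∨ j3 = (i - 1) + k := by omega
      obtain ⟨p1, p2, p3, p4⟩ := key (i + 1) (i - 1) (Or.inl ⟨rfl, by omega⟩) (by omega) hee
      rw [hf hi hji, hf hi c1, hf (by omega) c2, hf (by omega) c3, r1, r2, r3]
      exact ⟨p3, p1, p2, p4⟩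

variable {Γ : Type} [Group Γ]

/-- Exponents with respect to a generator. -/
theorem exists_exp [Finite Γ] (y : Γ) (hy : ∀ g : Γ, g ∈ Subgroup.zpowers y) :
    ∃ e : Γ → ℕ, (∀ g, y ^ (e g) = g ∧ e g < orderOf y) ∧
      ∀ g t, t < orderOf y → (e (g * y ^ t) = e g + t ∨ e (g * y ^ t) + orderOf y = e g + t) := by
  classical
  have h1 : ∀ g : Γ, ∃ n : ℕ, y ^ n = g ∧ n < orderOf y := by
    intro g
    have h := hy g
    rw [(isOfFinOrder_of_finite y).mem_zpowers_iff_mem_range_orderOf] at h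
    obtain ⟨n, hn, hn2⟩ := Finset.mem_image.1 h
    exact ⟨n, hn2, Finset.mem_range.1 hn⟩
  choose e he using h1
  refine ⟨e, he, fun g t ht => ?_⟩
  have h2 : y ^ (e (g * y ^ t)) = y ^ (e g + t) := by
    rw [(he _).1, pow_add, (he g).1]
  rw [pow_eq_pow_iff_modEq, Nat.ModEq, Nat.mod_eq_of_lt (he _).2] at h2
  have h3 := (he g).2
  rcases Nat.lt_or_ge (e g + t) (orderOf y) with h4 | h4
  · left
    rw [h2, Nat.mod_eq_of_lt h4]
  · right
    rw [h2, Nat.mod_eq_sub_mod h4, Nat.mod_eq_of_lt (by omega)]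
    omega

/-- An involution in a finite cyclic group. -/
theorem exists_half [Finite Γ] {a y : Γ} (ha : a * a = 1) (ha1 : a ≠ 1)
    (h : a ∈ Subgroup.zpowers y) : ∃ k : ℕ, 0 < k ∧ orderOf y = 2 * k ∧ a = y ^ k := by
  classical
  rw [(isOfFinOrder_of_finite y).mem_zpowers_iff_mem_range_orderOf] at h
  obtain ⟨k, hk, rfl⟩ := Finset.mem_image.1 h
  have hk' := Finset.mem_range.1 hk
  have hk0 : k ≠ 0 := by
    rintro rfl
    exact ha1 (pow_zero y)
  have hd : orderOf y ∣ k + k := by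
    rw [orderOf_dvd_iff_pow_eq_one, pow_add]
    exact ha
  obtain ⟨m, hm⟩ := hd
  have hm1 : m = 1 := by
    have h1 : m ≠ 0 := by
      rintro rfl
      omega
    by_contra hne
    have h2 : 2 ≤ m := by omega
    have h3 : orderOf y * 2 ≤ orderOf y * m := Nat.mul_le_mul_left _ h2
    omega
  subst hm1
  exact ⟨k, by omega, by omega, rfl⟩

/-- Moebius ladders. -/
theorem moebius [Finite Γ] {a x : Γ} (ha : a * a = 1) (ha1 : a ≠ 1)
    (hgen : ∀ g : Γ, g ∈ Subgroup.zpowers x)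
    (hbip : ¬ ∃ f : Γ → Bool, ∀ g, ∀ s ∈ ({a, x, x⁻¹} : Set Γ), f (g * s) ≠ f g)
    (hcard : Nat.card Γ ≠ 4) : Good a x x⁻¹ := by
  obtain ⟨h, h0, hN, hah⟩ := exists_half ha ha1 (hgen a)
  obtain ⟨e, he, hadd⟩ := exists_exp x hgen
  have hx : x = x ^ 1 := (pow_one x).symm
  have hxi : x⁻¹ = x ^ (2 * h - 1) := by
    rw [inv_eq_iff_mul_eq_one, ← pow_succ', show 2 * h - 1 + 1 = 2 * h by omega, ← hN,
      pow_orderOf_eq_one]
  have s1 : ∀ g, e (g * x) = e g + 1 ∨ e (g * x) + 2 * h = e g + 1 := by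
    intro g
    have := hadd g 1 (by omega)
    rwa [pow_one, hN] at this
  have s2 : ∀ g, e (g * x⁻¹) = e g + (2 * h - 1) ∨ e (g * x⁻¹) + 2 * h = e g + (2 * h - 1) := by
    intro g
    have := hadd g (2 * h - 1) (by omega)
    rwa [← hxi, hN] at this
  have s3 : ∀ g, e (g * a) = e g + h ∨ e (g * a) + 2 * h = e g + h := by
    intro g
    have := hadd g h (by omega)
    rwa [← hah, hN] at this
  have lt : ∀ g, e g < 2 * h := fun g => by rw [← hN]; exact (he g).2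
  have hcN : Nat.card Γ = 2 * h := by
    rw [← hN]
    exact (orderOf_eq_card_of_forall_mem_zpowers hgen).symm
  have heven : h % 2 = 0 := by
    by_contra hodd
    apply hbip
    refine ⟨fun g => decide (e g % 2 = 0), fun g s hs => ?_⟩
    have key : ¬ (e (g * s) % 2 = 0 ↔ e g % 2 = 0) := by
      rcases hs with rfl | rfl | rfl
      · have := s3 g; omega
      · have := s1 g; omega
      · have := s2 g; omega
    intro hd
    apply key
    simpa using hd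
  have h4 : 4 ≤ h := by omega
  refine ⟨ℕ, fun g => fM h (e g), fun g => ⟨?_, ?_, ?_, ?_⟩⟩
  · exact fM_stepH heven h4 (lt _) (lt _) (s3 g)
  · exact fM_step1 heven h4 (lt _) (lt _) (s1 g)
  · refine (fM_step1 (j := e (g * x⁻¹)) (j' := e g) heven h4 (lt _) (lt _) ?_).symm
    have := s2 g
    have := lt g
    have := lt (g * x⁻¹)
    omega
  · exact fM_two heven h4 (lt g) (lt _) (lt _) (lt _) (s3 g) (s1 g) (s2 g)

/-- Prisms over odd cycles. -/
theorem prism [Finite Γ] {a x : Γ} (ha : a * a = 1) (ha1 : a ≠ 1) (hx : x * x ≠ 1)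
    (hgen : Subgroup.closure ({a, x, x⁻¹} : Set Γ) = ⊤)
    (h1 : x ∈ Subgroup.zpowers (x * x)) (h2 : a ∈ Subgroup.zpowers (a * x)) :
    Good a x x⁻¹ := by
  set y := a * x with hy
  have hyy : y ∈ Subgroup.zpowers y := Subgroup.mem_zpowers y
  have hxy : x = a * y := by
    rw [hy, ← mul_assoc, ha, one_mul]
  have hxz : x ∈ Subgroup.zpowers y := by
    rw [hxy]; exact (Subgroup.zpowers y).mul_mem h2 hyy
  have hall : ∀ g : Γ, g ∈ Subgroup.zpowers y := by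
    intro g
    have h3 : (⊤ : Subgroup Γ) ≤ Subgroup.zpowers y := by
      rw [← hgen, Subgroup.closure_le]
      rintro s (rfl | rfl | rfl)
      · exact h2
      · exact hxz
      · exact (Subgroup.zpowers y).inv_mem hxz
    exact h3 trivial
  obtain ⟨k, k0, hN, hak⟩ := exists_half ha ha1 h2
  obtain ⟨e, he, hadd⟩ := exists_exp y hall
  have hxk : x = y ^ (k + 1) := by
    rw [pow_succ, ← hak]; exact hxy
  have hodd : k % 2 = 1 := by
    obtain ⟨m, hm⟩ := Subgroup.mem_zpowers_iff.1 h1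
    have h3 : y ^ ((k + 1 : ℤ) * (2 * m - 1)) = 1 := by
      have h4 : x ^ (2 * m - 1) = 1 := by
        have : x ^ (2 * m) = x := by
          rw [zpow_mul, zpow_ofNat, pow_two]; exact hm
        rw [zpow_sub, this, zpow_one, mul_inv_cancel]
      rw [zpow_mul]
      have h5 : y ^ (k + 1 : ℤ) = x := by
        rw [hxk]
        exact_mod_cast zpow_natCast y (k + 1)
      rw [h5]
      exact h4
    have h4 : ((orderOf y : ℕ) : ℤ) ∣ (k + 1 : ℤ) * (2 * m - 1) := orderOf_dvd_iff_zpow_eq_one.2 h3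
    have h5 : (2 : ℤ) ∣ (k + 1 : ℤ) * (2 * m - 1) := by
      refine dvd_trans ?_ h4
      rw [hN]
      push_cast
      exact dvd_mul_right _ _
    rcases Int.prime_two.dvd_or_dvd h5 with h6 | h6 <;> omega
  have h3 : 3 ≤ k := by
    by_contra hlt
    have hk1 : k = 1 := by omega
    apply hx
    rw [hxk, hk1, ← pow_add]
    have : y ^ (1 + 1 + (1 + 1)) = (y ^ (2 * k)) ^ 2 := by
      rw [hk1, ← pow_mul]
    rw [this, ← hN, pow_orderOf_eq_one, one_pow]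
  have hxi : x⁻¹ = y ^ (k - 1) := by
    rw [inv_eq_iff_mul_eq_one, hxk, ← pow_add, show k + 1 + (k - 1) = 2 * k by omega, ← hN,
      pow_orderOf_eq_one]
  have s1 : ∀ g, e (g * x) = e g + (k + 1) ∨ e (g * x) + 2 * k = e g + (k + 1) := by
    intro g
    have := hadd g (k + 1) (by omega)
    rwa [← hxk, hN] at this
  have s2 : ∀ g, e (g * x⁻¹) = e g + (k - 1) ∨ e (g * x⁻¹) + 2 * k = e g + (k - 1) := by
    intro g
    have := hadd g (k - 1) (by omega)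
    rwa [← hxi, hN] at this
  have s3 : ∀ g, e (g * a) = e g + k ∨ e (g * a) + 2 * k = e g + k := by
    intro g
    have := hadd g k (by omega)
    rwa [← hak, hN] at this
  have lt : ∀ g, e g < 2 * k := fun g => by rw [← hN]; exact (he g).2
  exact ⟨ℕ, fun g => fP k (e g), fun g =>
    fP_all hodd h3 (lt g) (lt _) (lt _) (lt _) (s3 g) (s1 g) (s2 g)⟩

end H13CC
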