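import Pool.Agent.H13.CC.Base

/-!
# Cubic Cayley graphs: the group theory
-/

namespace H13CC

variable {Γ : Type} [Group Γ]

theorem zp_sq {y g : Γ} (hy : y * y = 1) (h : g ∈ Subgroup.zpowers y) : g = 1 ∨ g = y := by
  obtain ⟨k, rfl⟩ := Subgroup.mem_zpowers_iff.1 h
  have h2 : y ^ (2 : ℤ) = 1 := by
    rw [zpow_ofNat, pow_two]; exact hy
  rcases Int.even_or_odd' k with ⟨m, rfl | rfl⟩
  · left
    rw [zpow_mul, h2, one_zpow]
  · right
    rw [zpow_add, zpow_mul, h2, one_zpow, one_mul, zpow_one]

theorem inv_eq_of_sq {a : Γ} (ha : a * a = 1) : a⁻¹ = a := inv_eq_of_mul_eq_one_left ha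

/-- An involution is not a power of its product with another involution. -/
theorem not_mem_zp {a b : Γ} (ha : a * a = 1) (hb : b * b = 1) (ha1 : a ≠ 1) (hb1 : b ≠ 1) :
    a ∉ Subgroup.zpowers (a * b) := by
  intro h
  obtain ⟨k, hk⟩ := Subgroup.mem_zpowers_iff.1 h
  have hcomm : (a * b) ^ k * (a * b) = (a * b) * (a * b) ^ k := by
    rw [← zpow_add_one, ← zpow_one_add, add_comm]
  rw [hk] at hcomm
  have hsq : (a * b) * (a * b) = 1 := by
    calc (a * b) * (a * b) = ((a * b) * a) * b := by group
      _ = (a * (a * b)) * b := by rw [hcomm]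
      _ = (a * a) * (b * b) := by group
      _ = 1 := by rw [ha, hb, one_mul]
  rcases zp_sq hsq h with h1 | h1
  · exact ha1 h1
  · apply hb1
    have : a * b = a * 1 := by rw [← h1, mul_one]
    exact mul_left_cancel this

/-- Conjugation by `a` inverts the powers of `a * b`. -/
theorem conj_zp {a b g : Γ} (ha : a * a = 1) (hb : b * b = 1) (h : g ∈ Subgroup.zpowers (a * b)) :
    a * g * a = g⁻¹ := by
  obtain ⟨k, rfl⟩ := Subgroup.mem_zpowers_iff.1 h
  have e1 : a * (a * b) * a⁻¹ = (a * b)⁻¹ := by
    rw [mul_inv_rev, inv_eq_of_sq ha, inv_eq_of_sq hb, ← mul_assoc a a b, ha, one_mul]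
  have e2 : a * (a * b) ^ k * a⁻¹ = (a * (a * b) * a⁻¹) ^ k := by
    rw [conj_zpow]
  rw [inv_eq_of_sq ha] at e1 e2
  rw [e2, e1, inv_zpow]

theorem card_four {a b c : Γ} (ha : a * a = 1) (hb : b * b = 1) (ha1 : a ≠ 1)
    (hb1 : b ≠ 1) (hab : a ≠ b) (hc : c = a * b) (hcc : c * c = 1)
    (hgen : Subgroup.closure ({a, b, c} : Set Γ) = ⊤) : Nat.card Γ = 4 := by
  have hba : b * a = a * b := by
    have h1 : (a * b) * (a * b) = 1 := by rw [← hc]; exact hcc
    calc b * a = (a * a) * (b * a) * (b * b) := by rw [ha, hb]; group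
      _ = a * ((a * b) * (a * b)) * b := by group
      _ = a * b := by rw [h1]; group
  have hall : ∀ g : Γ, g = 1 ∨ g = a ∨ g = b ∨ g = a * b := by
    intro g
    have hg : g ∈ Subgroup.closure ({a, b, c} : Set Γ) := by rw [hgen]; trivial
    have hstep : ∀ x y : Γ, y ∈ ({a, b, c} : Set Γ) →
        (x = 1 ∨ x = a ∨ x = b ∨ x = a * b) →
        (x * y = 1 ∨ x * y = a ∨ x * y = b ∨ x * y = a * b) := by
      have q1 : a * b * a = b := by rw [mul_assoc, hba, ← mul_assoc, ha, one_mul]
      have q2 : a * b * b = a := by rw [mul_assoc, hb, mul_one]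
      have q3 : a * (a * b) = b := by rw [← mul_assoc, ha, one_mul]
      have q4 : b * (a * b) = a := by rw [← mul_assoc, hba, mul_assoc, hb, mul_one]
      have q5 : a * b * (a * b) = 1 := by rw [← hc]; exact hcc
      intro x y hy hx
      subst hc
      rcases hy with rfl | rfl | rfl <;> rcases hx with rfl | rfl | rfl | rfl <;>
        simp [ha, hb, hba, q1, q2, q3, q4, q5]
    induction hg using Subgroup.closure_induction_right with
    | one => left; rfl
    | mul_right x _ y hy hx => exact hstep x y hy hx
    | mul_inv_cancel x _ y hy hx =>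
      have hyi : y⁻¹ = y := by
        rcases hy with rfl | rfl | rfl
        · exact inv_eq_of_sq ha
        · exact inv_eq_of_sq hb
        · exact inv_eq_of_sq hcc
      rw [hyi]
      exact hstep x y hy hx
  have h1 : (Set.univ : Set Γ) = {1, a, b, a * b} := by
    ext g
    simp only [Set.mem_univ, Set.mem_insert_iff, Set.mem_singleton_iff, true_iff]
    exact hall g
  have hab1 : a * b ≠ 1 := by
    intro h
    apply hab
    have : a * b = a * a := by rw [h, ha]
    exact (mul_left_cancel this).symm
  have haab : a ≠ a * b := by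
    intro h
    apply hb1
    have : a * 1 = a * b := by rw [mul_one]; exact h
    exact (mul_left_cancel this).symm
  have hbab : b ≠ a * b := by
    intro h
    apply ha1
    have : 1 * b = a * b := by rw [one_mul]; exact h
    exact (mul_right_cancel this).symm
  rw [← Set.ncard_univ, h1, Set.ncard_insert_of_notMem, Set.ncard_insert_of_notMem,
    Set.ncard_pair hbab]
  · simp [hab, haab]
  · simp [ha1.symm, hb1.symm, hab1.symm]

/-- Three involutions. -/
theorem caseA {a b c : Γ} (ha : a * a = 1) (hb : b * b = 1) (hc : c * c = 1) (ha1 : a ≠ 1)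
    (hb1 : b ≠ 1) (hc1 : c ≠ 1) (hab : a ≠ b) (hac : a ≠ c) (hbc : b ≠ c)
    (hgen : Subgroup.closure ({a, b, c} : Set Γ) = ⊤)
    (hbip : ¬ ∃ f : Γ → Bool, ∀ g, ∀ s ∈ ({a, b, c} : Set Γ), f (g * s) ≠ f g)
    (hcard : Nat.card Γ ≠ 4) : ∃ p q r : Γ, ({p, q, r} : Set Γ) = {a, b, c} ∧ Good p q r := by
  classical
  set H := Subgroup.zpowers (a * b) with hH
  have haH : a ∉ H := not_mem_zp ha hb ha1 hb1
  have habH : a * b ∈ H := Subgroup.mem_zpowers _
  have hbH : b ∉ H := by
    intro h
    apply haH
    have : a = (a * b) * b⁻¹ := by group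
    rw [this]
    exact H.mul_mem habH (H.inv_mem h)
  by_cases hacH : a * c ∈ H
  · -- bipartite
    exfalso
    apply hbip
    have hcH : c ∉ H := by
      intro h
      apply haH
      have : a = (a * c) * c⁻¹ := by group
      rw [this]
      exact H.mul_mem hacH (H.inv_mem h)
    have hinv : a⁻¹ = a := inv_eq_of_sq ha
    -- every element is in `H` or in `a H`
    have hS : ∀ s ∈ ({a, b, c} : Set Γ), a * s ∈ H := by
      rintro s (rfl | rfl | rfl)
      · rw [ha]; exact H.one_mem
      · exact habH
      · exact hacH
    have hSi : ∀ s ∈ ({a, b, c} : Set Γ), s⁻¹ = s := by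
      rintro s (rfl | rfl | rfl)
      · exact inv_eq_of_sq ha
      · exact inv_eq_of_sq hb
      · exact inv_eq_of_sq hc
    have hSn : ∀ s ∈ ({a, b, c} : Set Γ), s ∉ H := by
      rintro s (rfl | rfl | rfl)
      · exact haH
      · exact hbH
      · exact hcH
    -- `g ∈ H → a (g s) ∈ H`
    have k1 : ∀ g, g ∈ H → ∀ s ∈ ({a, b, c} : Set Γ), a * (g * s) ∈ H := by
      intro g hg s hs
      have e : a * (g * s) = (a * g * a) * (a * s) := by
        calc a * (g * s) = a * g * (1 * s) := by group
          _ = a * g * ((a * a) * s) := by rw [ha]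
          _ = _ := by group
      rw [e, conj_zp ha hb hg]
      exact H.mul_mem (H.inv_mem hg) (hS s hs)
    -- `a g ∈ H → g s ∈ H`
    have k2 : ∀ g, a * g ∈ H → ∀ s ∈ ({a, b, c} : Set Γ), g * s ∈ H := by
      intro g hg s hs
      have h3 := k1 (a * g) hg s hs
      have e : a * (a * g * s) = g * s := by
        calc a * (a * g * s) = (a * a) * (g * s) := by group
          _ = g * s := by rw [ha, one_mul]
      rw [e] at h3
      exact h3
    have hall : ∀ g : Γ, g ∈ H ∨ a * g ∈ H := by
      intro g
      have hg : g ∈ Subgroup.closure ({a, b, c} : Set Γ) := by rw [hgen]; trivial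
      induction hg using Subgroup.closure_induction_right with
      | one => left; exact H.one_mem
      | mul_right x _ y hy hx =>
        rcases hx with hx | hx
        · right; exact k1 x hx y hy
        · left; exact k2 x hx y hy
      | mul_inv_cancel x _ y hy hx =>
        rw [hSi y hy]
        rcases hx with hx | hx
        · right; exact k1 x hx y hy
        · left; exact k2 x hx y hy
    refine ⟨fun g => decide (g ∈ H), fun g s hs => ?_⟩
    by_cases hg : g ∈ H
    · have : g * s ∉ H := by
        intro h
        apply hSn s hs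
        have e : s = g⁻¹ * (g * s) := by group
        rw [e]
        exact H.mul_mem (H.inv_mem hg) h
      simp [hg, this]
    · have : g * s ∈ H := k2 g ((hall g).resolve_left hg) s hs
      simp [hg, this]
  · by_cases hcH : c ∈ H
    · -- `c` commutes with `a`
      have hca : a * c * a = c := by
        rw [conj_zp ha hb hcH, inv_eq_of_sq hc]
      have hacc : a * c = c * a := by
        calc a * c = a * c * (a * a) := by rw [ha, mul_one]
          _ = (a * c * a) * a := by group
          _ = c * a := by rw [hca]
      have hsq : (a * c) * (a * c) = 1 := by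
        calc (a * c) * (a * c) = (a * c) * (c * a) := by rw [hacc]
          _ = a * (c * c) * a := by group
          _ = 1 := by rw [hc, mul_one, ha]
      refine ⟨a, c, b, ?_, good_coset (Subgroup.zpowers (a * c)) (not_mem_zp ha hc ha1 hc1) ?_ ?_ ?_ ?_⟩
      · ext z; simp only [Set.mem_insert_iff, Set.mem_singleton_iff]; tauto
      · rw [hacc]; exact not_mem_zp hc ha hc1 ha1
      · intro h
        rcases zp_sq hsq h with h1 | h1
        · exact hb1 h1
        · apply hcard
          have hcab : c = a * b := by
            rw [h1, ← mul_assoc, ha, one_mul]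
          exact card_four ha hb ha1 hb1 hab hcab hc hgen
      · rw [inv_eq_of_sq ha]; exact Subgroup.mem_zpowers _
      · rw [inv_eq_of_sq ha]
        intro h
        rcases zp_sq hsq h with h1 | h1
        · apply hab
          have : a * b = a * a := by rw [h1, ha]
          exact (mul_left_cancel this).symm
        · exact hbc (mul_left_cancel h1)
    · refine ⟨a, b, c, rfl, good_coset H haH hbH hcH ?_ ?_⟩
      · rw [inv_eq_of_sq ha]; exact habH
      · rw [inv_eq_of_sq ha]; exact hacH

/-- An involution and an element of order at least three: either a coset colouring works, or the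
group is cyclic, generated by `x`, or by `a * x` (then `x` is a power of `x ^ 2`). -/
theorem caseB {a x : Γ} (ha : a * a = 1) :
    Good a x x⁻¹ ∨ Good x⁻¹ x a ∨ a ∈ Subgroup.zpowers x ∨
      (x ∈ Subgroup.zpowers (x * x) ∧ a ∈ Subgroup.zpowers (a * x)) := by
  by_cases h1 : x ∈ Subgroup.zpowers (x * x)
  · set H := Subgroup.zpowers (a * x) with hH
    have haxH : a * x ∈ H := Subgroup.mem_zpowers _
    by_cases haH : a ∈ H
    · right; right; right
      exact ⟨h1, haH⟩
    · left
      have hxH : x ∉ H := by
        intro h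
        apply haH
        have e : a = (a * x) * x⁻¹ := by group
        rw [e]
        exact H.mul_mem haxH (H.inv_mem h)
      refine good_coset H haH hxH (fun h => hxH ((Subgroup.inv_mem_iff H).1 h)) ?_ ?_
      · rw [inv_eq_of_sq ha]; exact haxH
      · intro h
        apply hxH
        have h2 : x * x ∈ H := by
          have e : x * x = (a⁻¹ * x⁻¹)⁻¹ * (a * x) := by
            calc x * x = x * 1 * x := by group
              _ = x * (a * a) * x := by rw [ha]
              _ = _ := by group
          rw [e]
          exact H.mul_mem (H.inv_mem h) haxH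
        exact (Subgroup.zpowers_le.2 h2) h1
  · by_cases h2 : a ∈ Subgroup.zpowers x
    · right; right; left; exact h2
    · right; left
      have hle : Subgroup.zpowers (x * x) ≤ Subgroup.zpowers x := by
        rw [Subgroup.zpowers_le]
        exact (Subgroup.zpowers x).mul_mem (Subgroup.mem_zpowers x) (Subgroup.mem_zpowers x)
      refine good_coset (Subgroup.zpowers (x * x)) (fun h => h1 ((Subgroup.inv_mem_iff _).1 h)) h1
        (fun h => h2 (hle h)) ?_ ?_
      · rw [inv_inv]; exact Subgroup.mem_zpowers _
      · rw [inv_inv]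
        intro h
        apply h2
        have e : a = x⁻¹ * (x * a) := by group
        rw [e]
        exact (Subgroup.zpowers x).mul_mem ((Subgroup.zpowers x).inv_mem (Subgroup.mem_zpowers x))
          (hle h)

end H13CC
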