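import Pool.Agent.H13.CC.Cyc

/-!
# Cubic graphs with a simply transitive group of automorphisms
-/

namespace H13CC

section grp

variable {Γ : Type} [Group Γ]

/-- The set of three generators is of one of the two types. -/
theorem split_three {S : Set Γ} (hS : ∀ s ∈ S, s⁻¹ ∈ S) (h1 : (1 : Γ) ∉ S) (h3 : S.ncard = 3) :
    (∃ a b c : Γ, S = {a, b, c} ∧ a * a = 1 ∧ b * b = 1 ∧ c * c = 1 ∧ a ≠ b ∧ a ≠ c ∧ b ≠ c) ∨
      ∃ a x : Γ, S = {a, x, x⁻¹} ∧ a * a = 1 ∧ x * x ≠ 1 := by
  classical
  by_cases hall : ∀ s ∈ S, s * s = 1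
  · left
    obtain ⟨a, b, c, hab, hac, hbc, rfl⟩ := Set.ncard_eq_three.1 h3
    exact ⟨a, b, c, rfl, hall a (by simp), hall b (by simp), hall c (by simp), hab, hac, hbc⟩
  · right
    push Not at hall
    obtain ⟨x, hx, hxx⟩ := hall
    have hne : x ≠ x⁻¹ := by
      intro h
      apply hxx
      exact mul_eq_one_iff_eq_inv.2 h
    have hsub : ({x, x⁻¹} : Set Γ) ⊆ S := by
      rintro s (rfl | rfl)
      · exact hx
      · exact hS _ hx
    have hfin : S.Finite := Set.finite_of_ncard_ne_zero (by omega)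
    have hd : (S \ {x, x⁻¹}).ncard = 1 := by
      have := Set.ncard_diff_add_ncard_of_subset hsub hfin
      rw [Set.ncard_pair hne, h3] at this
      omega
    obtain ⟨a, ha⟩ := Set.ncard_eq_one.1 hd
    have haS : a ∈ S \ {x, x⁻¹} := by rw [ha]; rfl
    have hax : a ≠ x := fun h => haS.2 (by simp [h])
    have hax' : a ≠ x⁻¹ := fun h => haS.2 (by simp [h])
    have hSeq : S = {a, x, x⁻¹} := by
      ext s
      constructor
      · intro hs
        by_cases hs2 : s ∈ ({x, x⁻¹} : Set Γ)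
        · exact Or.inr hs2
        · have : s ∈ S \ {x, x⁻¹} := ⟨hs, hs2⟩
          rw [ha] at this
          exact Or.inl this
      · rintro (rfl | hs)
        · exact haS.1
        · exact hsub hs
    refine ⟨a, x, hSeq, ?_, hxx⟩
    have hai : a⁻¹ ∈ S := hS a haS.1
    rw [hSeq] at hai
    rcases hai with h | h | h
    · exact mul_eq_one_iff_eq_inv.2 h.symm
    · exact absurd (by rw [← h, inv_inv]) hax'
    · exact absurd (inv_injective h) hax

theorem group_main [Finite Γ] {S : Set Γ} (hS : ∀ s ∈ S, s⁻¹ ∈ S) (h1 : (1 : Γ) ∉ S)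
    (h3 : S.ncard = 3) (hgen : Subgroup.closure S = ⊤)
    (hbip : ¬ ∃ f : Γ → Bool, ∀ g, ∀ s ∈ S, f (g * s) ≠ f g) (hcard : Nat.card Γ ≠ 4) :
    ∃ (C : Type) (c : Γ → C), (∀ g, ∀ s ∈ S, c (g * s) ≠ c g) ∧
      ∀ g, ((fun s => c (g * s)) '' S).ncard = 2 := by
  rcases split_three hS h1 h3 with ⟨a, b, c, rfl, ha, hb, hc, hab, hac, hbc⟩ | ⟨a, x, rfl, ha, hx⟩
  · have ha1 : a ≠ 1 := by rintro rfl; exact h1 (by simp)
    have hb1 : b ≠ 1 := by rintro rfl; exact h1 (by simp)
    have hc1 : c ≠ 1 := by rintro rfl; exact h1 (by simp)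
    obtain ⟨p, q, r, hpqr, hg⟩ := caseA ha hb hc ha1 hb1 hc1 hab hac hbc hgen hbip hcard
    exact good_of_eq hg hpqr
  · have ha1 : a ≠ 1 := by rintro rfl; exact h1 (by simp)
    rcases caseB (a := a) (x := x) ha with h | h | h | ⟨h, h'⟩
    · exact good_of_eq h rfl
    · refine good_of_eq h ?_
      ext z; simp only [Set.mem_insert_iff, Set.mem_singleton_iff]; tauto
    · have hall : ∀ g : Γ, g ∈ Subgroup.zpowers x := by
        intro g
        have h3 : (⊤ : Subgroup Γ) ≤ Subgroup.zpowers x := by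
          rw [← hgen, Subgroup.closure_le]
          rintro s (rfl | rfl | rfl)
          · exact h
          · exact Subgroup.mem_zpowers _
          · exact (Subgroup.zpowers x).inv_mem (Subgroup.mem_zpowers _)
        exact h3 trivial
      exact good_of_eq (moebius ha ha1 hall hbip hcard) rfl
    · exact good_of_eq (prism ha ha1 hx hgen h h') rfl

end grp

/-- The main theorem for graphs. -/
theorem main (V : Type) [Finite V] (G : SimpleGraph V) (hconn : G.Connected)
    (hcub : ∀ v, (G.neighborSet v).ncard = 3) (H : Subgroup (G ≃g G))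
    (hH : ∀ v w : V, ∃! φ : G ≃g G, φ ∈ H ∧ φ v = w)
    (hbip : ¬ G.IsBipartite) (hK : Nat.card V ≠ 4) :
    ∃ (k : ℕ) (c : G.Coloring (Fin k)), ∀ v, (c '' G.neighborSet v).ncard = 2 := by
  classical
  obtain ⟨v0⟩ := hconn.nonempty
  -- the bijection
  have hinj : Function.Injective (fun φ : H => (φ : G ≃g G) v0) := by
    intro φ ψ h
    obtain ⟨χ, -, hu⟩ := hH v0 ((φ : G ≃g G) v0)
    have h2 := hu (φ : G ≃g G) ⟨φ.2, rfl⟩
    have h3 := hu (ψ : G ≃g G) ⟨ψ.2, h.symm⟩
    exact Subtype.ext (h2.trans h3.symm)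
  have hsurj : Function.Surjective (fun φ : H => (φ : G ≃g G) v0) := by
    intro w
    obtain ⟨χ, ⟨h1, h2⟩, -⟩ := hH v0 w
    exact ⟨⟨χ, h1⟩, h2⟩
  let β : H ≃ V := Equiv.ofBijective _ ⟨hinj, hsurj⟩
  have hβ : ∀ φ : H, β φ = (φ : G ≃g G) v0 := fun φ => rfl
  have hfinH : Finite H := Finite.of_equiv V β.symm
  let S : Set H := {φ | G.Adj v0 (β φ)}
  have hadj : ∀ φ ψ : H, G.Adj (β φ) (β ψ) ↔ φ⁻¹ * ψ ∈ S := by
    intro φ ψ
    have e1 : G.Adj ((φ : G ≃g G) v0) ((φ : G ≃g G) (((φ⁻¹ * ψ : H) : G ≃g G) v0)) ↔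
        G.Adj v0 (((φ⁻¹ * ψ : H) : G ≃g G) v0) := (φ : G ≃g G).map_adj_iff
    have e2 : (φ : G ≃g G) (((φ⁻¹ * ψ : H) : G ≃g G) v0) = (ψ : G ≃g G) v0 := by
      have : (φ : G ≃g G) * ((φ⁻¹ * ψ : H) : G ≃g G) = (ψ : G ≃g G) := by
        rw [← Subgroup.coe_mul, mul_inv_cancel_left]
      exact congrArg (fun χ : G ≃g G => χ v0) this
    rw [e2] at e1
    exact e1
  have h1 : (1 : H) ∉ S := by
    intro h
    exact G.loopless.irrefl v0 h
  have hS : ∀ s ∈ S, s⁻¹ ∈ S := by
    intro s hs
    have h2 : G.Adj (β 1) (β s) := hs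
    have h3 := (hadj s 1).1 h2.symm
    rwa [mul_one] at h3
  have h3 : S.ncard = 3 := by
    have e : S = β ⁻¹' (G.neighborSet v0) := rfl
    rw [e, Set.ncard_preimage_of_injective_subset_range β.injective]
    · exact hcub v0
    · intro w _
      exact β.surjective w
  have hgen : Subgroup.closure S = ⊤ := by
    rw [eq_top_iff]
    intro ψ _
    have key : ∀ {u w : V} (p : G.Walk u w), β.symm u ∈ Subgroup.closure S →
        β.symm w ∈ Subgroup.closure S := by
      intro u w p
      induction p with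
      | nil => exact id
      | cons h p ih =>
        rename_i a b c
        intro ha
        apply ih
        have h4 : (β.symm a)⁻¹ * β.symm b ∈ S := by
          rw [← hadj]
          simpa using h
        have e : β.symm b = β.symm a * ((β.symm a)⁻¹ * β.symm b) := by group
        rw [e]
        exact (Subgroup.closure S).mul_mem ha (Subgroup.subset_closure h4)
    obtain ⟨p⟩ := hconn.preconnected v0 (β ψ)
    have h5 := key p (by
      have : β.symm v0 = 1 := by
        rw [Equiv.symm_apply_eq]; rfl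
      rw [this]
      exact (Subgroup.closure S).one_mem)
    rwa [Equiv.symm_apply_apply] at h5
  have hb : ¬ ∃ f : H → Bool, ∀ g, ∀ s ∈ S, f (g * s) ≠ f g := by
    rintro ⟨f, hf⟩
    apply hbip
    have hc : G.Coloring Bool := SimpleGraph.Coloring.mk (fun v => f (β.symm v)) (by
      intro u w huw h
      have h4 : (β.symm u)⁻¹ * β.symm w ∈ S := by
        rw [← hadj]
        simpa using huw
      have h5 := hf (β.symm u) _ h4
      rw [mul_inv_cancel_left] at h5
      exact h5 h.symm)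
    have h6 := hc.colorable
    simpa using h6
  have hc : Nat.card H ≠ 4 := by
    rw [Nat.card_congr β]
    exact hK
  obtain ⟨k, c, hc2⟩ := final_of hS h1 (group_main hS h1 h3 hgen hb hc)
  let e : cayley S ≃g G :=
    { toEquiv := β
      map_rel_iff' := by
        intro φ ψ
        change G.Adj (β φ) (β ψ) ↔ (cayley S).Adj φ ψ
        rw [hadj, cayley, SimpleGraph.fromRel_adj]
        constructor
        · intro h
          refine ⟨?_, Or.inl h⟩
          rintro rfl
          rw [inv_mul_cancel] at h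
          exact h1 h
        · rintro ⟨-, h | h⟩
          · exact h
          · have := hS _ h
            simpa using this }
  refine ⟨k, c.comp e.symm.toHom, fun v => ?_⟩
  have h7 : ((c.comp e.symm.toHom : G.Coloring (Fin k)) '' G.neighborSet v) =
      c '' (cayley S).neighborSet (e.symm v) := by
    ext i
    constructor
    · rintro ⟨w, hw, rfl⟩
      exact ⟨e.symm w, e.symm.map_adj_iff.2 hw, rfl⟩
    · rintro ⟨φ, hφ, rfl⟩
      refine ⟨e φ, ?_, ?_⟩
      · have h8 : (cayley S).Adj (e.symm v) φ := hφ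
        have h9 := e.map_adj_iff.2 h8
        rwa [RelIso.apply_symm_apply] at h9
      · change c (e.symm (e φ)) = c φ
        rw [RelIso.symm_apply_apply]
  rw [h7]
  exact hc2 _

end H13CC
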